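import Pool.Agent.R188.Coin4

set_option autoImplicit false

/-!
# MP_61130f_an : the map of the capped cylinder is integrable only for circles

The definitions used by the statement (`StrictlyConvexCurve`, `PhaseCylinder`, `Chord`,
`IsBilliardMap`, `cylinderMap`, `IsRotationalInvariantCurve`) are in
`Pool/Agent/H738R2/CylStmt.lean`, and `IsIntegrable` is in `Pool/Agent/W714/Coin/Defs.lean`.

If the phase cylinder is foliated by invariant curves, then for each large integer `K` one of the
curves consists of fixed points of `T` whose displacement along the base is exactly `K L`; these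
curves converge to the boundary component `α = 0`. A fixed point is a chord with equal angles at its
ends, so arbitrarily short chords with equal angles leave every point of the curve, and this forces
the derivative of the curvature to vanish.
-/

namespace Pool.Agent.Results.MP_61130f_an.OnlyCircles

open Pool.Agent.H738R2.Cyl Pool.Agent.W714.Coin

/-- Let `γ` be the arc length parametrisation of a `C^∞` strictly convex closed curve of length `L`.
It has exactly one billiard map `T₁`, and for every `d > 0` the map `T = T₂ ∘ T₁` of the capped
cylinder of height `d` over the curve is integrable if and only if the curve is a circle. -/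
theorem result : ∀ (γ : ℝ → ℂ) (L : ℝ), StrictlyConvexCurve γ L →
    (∃! T₁ : PhaseCylinder L → PhaseCylinder L, IsBilliardMap γ L T₁) ∧
    ∀ T₁ : PhaseCylinder L → PhaseCylinder L, IsBilliardMap γ L T₁ → ∀ d : ℝ, 0 < d →
      (IsIntegrable (cylinderMap L d ∘ T₁) ↔
        ∃ (c : ℂ) (R : ℝ), 0 < R ∧ Set.range γ = Metric.sphere c R) := by
  intro γ L h
  refine ⟨⟨bmap h, isBilliardMap_bmap h, fun T hT => eq_bmap h hT⟩, fun T₁ hT d hd => ?_⟩
  exact R188.Coin.main γ L d T₁ h hd hT

end Pool.Agent.Results.MP_61130f_an.OnlyCircles
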